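import Mathlib
import Pool.Agent.W964.Wd.DnfDefs
import Pool.Agent.W964.Wd.DnfMain

/-!
Learning DNF formulas with `s` gates in `n` variables from uniform random examples needs
`n ^ ((1 / 2 - o(1)) log₂ s)` processors on ideal parallel machines with running time
`o(log n / log (log s log n))`, for any number of examples, even weakly and with arbitrary
hypotheses; in particular polynomial-size DNF formulas cannot be learned with `n ^ o(log n)`
processors.
-/

namespace Pool.Agent.Results.MP_cba12a_lc.ParallelLearners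

open Pool.Agent.W964.Wd Filter

/-- 1. For `0 < ε ≤ 1` and `K` there are `δ > 0` and `n₀` such that for `n ≥ n₀` variables, size
`s ≥ 5`, `T ≥ 1` steps with `T log (log s log n) ≤ δ log n`, `P ≤ n ^ ((1 - ε) log₂ (s - 1) / 2)`
processors and any number `N` of examples, every randomized parallel learner outputs for some DNF
formula `f` with at most `s` gates a hypothesis with error at most `1 / 2 - n ^ (-1 / 8)` with
probability at most `n ^ (-ε / 3)`.

2. If `T n log log n = o (log n)` and `P n = n ^ o(log n)`, then for all large `n` the same holds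
for formulas with at most `n` gates, with the probability `n ^ (-1 / 6)`. -/
theorem result :
    (∀ (ε : ℝ) (K : ℕ), 0 < ε → ε ≤ 1 → ∃ δ : ℝ, 0 < δ ∧ ∃ n₀ : ℕ,
      ∀ n : ℕ, n₀ ≤ n → ∀ (s T P N : ℕ), 5 ≤ s → 1 ≤ T →
        T * Real.log (Real.log s * Real.log n) ≤ δ * Real.log n →
        (P : ℝ) ≤ (n : ℝ) ^ ((1 - ε) * (Real.logb 2 (s - 1) / 2)) →
        ∀ R : RandMachine (Fin N → Bool) (Option (Fin n)) P, R.Lists (n ^ K) →
        ∀ dec : (ω : R.Ω) → (R.mach ω).V → ((Fin n → Bool) → Bool),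
        ∃ f : (Fin n → Bool) → Bool, IsDnf s f ∧
          learnProb R T f (fun ω v => err f (dec ω v) ≤ 1 / 2 - (n : ℝ) ^ (-(1 / 8 : ℝ))) ≤
            (n : ℝ) ^ (-(ε / 3))) ∧
    (∀ (K : ℕ) (T P : ℕ → ℕ), (∀ n, 1 ≤ T n) →
      (fun n : ℕ => (T n : ℝ) * Real.log (Real.log n)) =o[atTop] (fun n : ℕ => Real.log n) →
      (fun n : ℕ => Real.log (P n)) =o[atTop] (fun n : ℕ => Real.log n ^ 2) →
      ∀ᶠ n : ℕ in atTop, ∀ (N : ℕ) (R : RandMachine (Fin N → Bool) (Option (Fin n)) (P n)),
        R.Lists (n ^ K) → ∀ dec : (ω : R.Ω) → (R.mach ω).V → ((Fin n → Bool) → Bool),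
        ∃ f : (Fin n → Bool) → Bool, IsDnf n f ∧
          learnProb R (T n) f
            (fun ω v => err f (dec ω v) ≤ 1 / 2 - (n : ℝ) ^ (-(1 / 8 : ℝ))) ≤
            (n : ℝ) ^ (-(1 / 6 : ℝ))) :=
  ⟨fun ε K hε hε1 => dnf_core ε hε hε1 K, fun K T P hT hTo hPo => dnf_asym K T P hT hTo hPo⟩

end Pool.Agent.Results.MP_cba12a_lc.ParallelLearners
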